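import Pool.Agent.HP778.Main
import Pool.Agent.T6.H39.TR.Smooth

/-!
# `n ^ R(π)`, `n ^ R(e)`, `n ^ R(π, e)` for rational functions `R` of growing degree

Let `t_1, ..., t_r` be complex numbers (e.g. `π`, or `e`, or `π, e`) and `D ≥ 1`. An integer `n` is
exceptional if `n ^ x` is algebraic (or, more generally, a number `e ^ γ α_1 ^ β_1 ⋯ α_k ^ β_k` with
algebraic `γ`, `α_i`, `β_i`) for SOME transcendental number `x = P(t) / Q(t)`, where `P`, `Q` are
polynomials with algebraic coefficients of degree at most `D` in each variable.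

The starting library (`Pool.Agent.HP778`) shows that at most `ρ` exceptional integers are
multiplicatively independent, `ρ = 2 ((4 D) ^ r - 2 ^ r)`, which yields the bound
`(log₂ N + 1) ^ ρ` for the number of the exceptional integers `n ≤ N`; it is trivial as soon as `ρ`
exceeds `log N / log log N`. Here the integers are counted in a different way: if the vectors of the
exponents `v_p(n)` of the exceptional integers span a space of dimension at most `ρ`, there are `ρ`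
primes `p_1, ..., p_ρ` such that `n` is determined by `v_{p_1}(n), ..., v_{p_ρ}(n)`, hence by its
divisor composed of these primes. So there are at most as many exceptional `n ≤ N` as integers
`m ≤ N` composed of `ρ` primes, and Rankin's method gives `N ^ (1 - η) exp (4 ((ρ + 1) ^ η - 1) / η)`.
This is `o(N)` even for `D` larger than every power of `log N`.
-/

set_option autoImplicit false

namespace Pool.Agent.Results.MP_ee2255_nt.GrowingDegrees

open Module Finset
open Pool.Agent.HP778 hiding IsQuot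
open Pool.Agent.T6.H39.TR

/-- The linear combinations, with algebraic coefficients, of `1` and of logarithms of algebraic
numbers. -/
noncomputable def LogForms : Submodule (algebraicClosure ℚ ℂ) ℂ :=
  Submodule.span (algebraicClosure ℚ ℂ) ({1} ∪ {z : ℂ | IsAlgebraic ℚ (Complex.exp z)})

/-- The numbers `e ^ z` with `z` in `LogForms`, i.e. the numbers `e ^ γ α_1 ^ β_1 ⋯ α_k ^ β_k` with
algebraic `γ`, `α_i ≠ 0`, `β_i`. -/
def Prods : Set ℂ := {x | ∃ z ∈ LogForms, Complex.exp z = x}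

/-- the transcendental numbers `P(t) / Q(t)`, where `P`, `Q` are polynomials in `r` variables with
algebraic coefficients, of degree at most `D` in each variable -/
def ratVals {r : ℕ} (t : Fin r → ℂ) (D : ℕ) : Set ℂ :=
  {x | Transcendental ℚ x ∧ ∃ P Q : MvPolynomial (Fin r) (algebraicClosure ℚ ℂ),
    (∀ i, P.degreeOf i ≤ D) ∧ (∀ i, Q.degreeOf i ≤ D) ∧ MvPolynomial.aeval t Q ≠ 0 ∧
    x = MvPolynomial.aeval t P / MvPolynomial.aeval t Q}

/-- the positive integers `n` such that `n ^ x` is in `Prods` for SOME `x` in `E` -/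
def Exc (E : Set ℂ) : Set ℕ := {n | 1 ≤ n ∧ ∃ x ∈ E, (n : ℂ) ^ x ∈ Prods}

open Classical in
/-- the number of the elements of `Exc E` which are at most `N` -/
noncomputable def excCount (E : Set ℂ) (N : ℕ) : ℕ :=
  ((Finset.Icc 1 N).filter (· ∈ Exc E)).card

open Classical in
/-- the number of the integers between `1` and `N` all of whose prime factors are in `s` -/
noncomputable def composedOf (s : Finset ℕ) (N : ℕ) : ℕ :=
  ((Finset.Icc 1 N).filter fun m => ∀ p : ℕ, p.Prime → p ∣ m → p ∈ s).card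

/-- The four bounds for the exceptional integers, with the rank `ρ`:
(a) at most `ρ` exceptional integers have logarithms which are linearly independent over the rational
numbers (i.e. are multiplicatively independent);
(b) at most `ρ` prime numbers (of any size) are exceptional;
(c) there are at most as many exceptional integers `n ≤ N` as integers `m ≤ N` composed of certain
`ρ` primes; (d) the explicit bound for this number; (e) it is at most `N exp (-√(log N))` if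
`log N ≥ 64` and `ρ + 1 ≤ exp (√(log N) / 3)`. -/
def Bounds (E : Set ℂ) (ρ : ℕ) : Prop :=
  (∀ (m : ℕ) (n : Fin m → ℕ), (∀ i, n i ∈ Exc E) →
    LinearIndependent ℚ (fun i => Real.log (n i)) → m ≤ ρ) ∧
  (∀ s : Finset ℕ, (∀ p ∈ s, p.Prime ∧ p ∈ Exc E) → s.card ≤ ρ) ∧
  (∀ N : ℕ, ∃ s : Finset ℕ, s.card ≤ ρ ∧ (∀ p ∈ s, p.Prime) ∧ excCount E N ≤ composedOf s N) ∧
  (∀ (N : ℕ) (η : ℝ), 0 < η → η ≤ 1 / 2 →
    (excCount E N : ℝ) ≤ (N : ℝ) ^ (1 - η) * Real.exp (4 * ((((ρ : ℝ) + 1) ^ η - 1) / η))) ∧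
  (∀ N : ℕ, 64 ≤ Real.log N → (ρ : ℝ) + 1 ≤ Real.exp (Real.sqrt (Real.log N) / 3) →
    (excCount E N : ℝ) ≤ N * Real.exp (-Real.sqrt (Real.log N)))

theorem mem_of_exc {n : ℕ} (hn : 1 ≤ n) {x : ℂ} (h : (n : ℂ) ^ x ∈ Prods) :
    x * ((Real.log n : ℝ) : ℂ) ∈ Pool.Agent.H301R2.SSE.Lt := by
  obtain ⟨z, hz, hze⟩ := h
  rw [natCast_cpow hn] at hze
  exact mem_of_exp hz hze.symm

theorem li_complex {m : ℕ} {a : Fin m → ℝ} (h : LinearIndependent ℚ a) :
    LinearIndependent ℚ (fun i => ((a i : ℝ) : ℂ)) := by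
  have h1 := h.map' (Complex.ofRealCLM.toLinearMap.restrictScalars ℚ : ℝ →ₗ[ℚ] ℂ) (by
    rw [LinearMap.ker_eq_bot]
    intro a b hab
    exact Complex.ofReal_injective hab)
  exact h1

theorem li_real {m : ℕ} {a : Fin m → ℝ} (h : LinearIndependent ℚ (fun i => ((a i : ℝ) : ℂ))) :
    LinearIndependent ℚ a := by
  rw [Fintype.linearIndependent_iff] at h ⊢
  intro g hg
  apply h g
  have h1 := congrArg (fun z : ℝ => (z : ℂ)) hg
  simp only [Complex.ofReal_sum, Complex.ofReal_zero, Rat.smul_def, Complex.ofReal_mul,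
    Complex.ofReal_ratCast] at h1
  simpa only [Rat.smul_def] using h1

theorem comp_eq (s : Finset ℕ) (N : ℕ) : (comp s N).card = composedOf s N := by
  classical
  unfold comp composedOf
  congr 1
  ext m
  rw [Finset.mem_filter, Finset.mem_filter]
  refine and_congr_right fun hm => ?_
  have hm1 := (Finset.mem_Icc.mp hm).1
  constructor
  · intro h p hp hpm
    exact h p (Nat.mem_primeFactors.mpr ⟨hp, hpm, by omega⟩)
  · intro h p hp
    exact h p (Nat.prime_of_mem_primeFactors hp) (Nat.dvd_of_mem_primeFactors hp)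

theorem bounds_of {E : Set ℂ} {ρ : ℕ}
    (h : ∀ (m : ℕ) (l : Fin m → ℂ), (∀ i, IsAlgebraic ℚ (Complex.exp (l i))) →
      LinearIndependent ℚ l → (∀ i, ∃ x ∈ E, x * l i ∈ Pool.Agent.H301R2.SSE.Lt) → m ≤ ρ) :
    Bounds E ρ := by
  classical
  have h0 : ∀ (m : ℕ) (n : Fin m → ℕ), (∀ i, n i ∈ Exc E) →
      LinearIndependent ℚ (fun i => ((Real.log (n i) : ℝ) : ℂ)) → m ≤ ρ := by
    intro m n hn hli
    refine h m _ (fun i => exp_log_alg (hn i).1) hli fun i => ?_
    obtain ⟨x, hx, hxp⟩ := (hn i).2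
    exact ⟨x, hx, mem_of_exc (hn i).1 hxp⟩
  have hc : ∀ N : ℕ, ∃ s : Finset ℕ, s.card ≤ ρ ∧ (∀ p ∈ s, p.Prime) ∧
      excCount E N ≤ (comp s N).card := by
    intro N
    have h1 := count_comp (N := N) (r := ρ) ((Finset.Icc 1 N).filter (· ∈ Exc E))
      (fun n hn => Finset.mem_Icc.mp (Finset.mem_filter.mp hn).1)
      (fun m n hn hli => h0 m n (fun i => (Finset.mem_filter.mp (hn i)).2) hli)
    exact h1
  refine ⟨fun m n hn hli => h0 m n hn (li_complex hli), fun s hs => ?_, fun N => ?_,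
    fun N η hη hη2 => ?_, fun N hN hρ => ?_⟩
  · let e := s.equivFin
    refine h0 s.card (fun i => ((e.symm i : s) : ℕ)) (fun i => (hs _ (e.symm i).2).2) ?_
    exact Pool.Agent.W254.HP.log_primes_indep.comp
      (fun i => (⟨((e.symm i : s) : ℕ), (hs _ (e.symm i).2).1⟩ : Nat.Primes)) (by
        intro i j hij
        apply e.symm.injective
        exact Subtype.ext (congrArg (fun z : Nat.Primes => (z : ℕ)) hij))
  · obtain ⟨s, h1, h2, h3⟩ := hc N
    exact ⟨s, h1, h2, (comp_eq s N) ▸ h3⟩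
  · obtain ⟨s, h1, h2, h3⟩ := hc N
    exact le_trans (by exact_mod_cast h3) (comp_le s h1 h2 hη hη2)
  · obtain ⟨s, h1, h2, h3⟩ := hc N
    exact le_trans (by exact_mod_cast h3) (comp_le_exp s h1 h2 hN hρ)

theorem quot_of {r : ℕ} {t : Fin r → ℂ} {D : ℕ} {x : ℂ} (h : x ∈ ratVals t D) :
    Pool.Agent.HP778.IsQuot D t x 0 := by
  obtain ⟨_, P, Q, hP, hQ, hQ0, hx⟩ := h
  refine ⟨P, Q, 0, hP, hQ, fun i => ?_, hQ0, hx, ?_⟩
  · rw [MvPolynomial.degreeOf_zero]; exact Nat.zero_le _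
  · rw [map_zero, zero_div]

theorem bounds_gen {r : ℕ} (t : Fin r → ℂ) {D : ℕ} (hD : 1 ≤ D) :
    Bounds (ratVals t D) (2 * ((4 * D) ^ r - 2 ^ r)) := by
  refine bounds_of fun m l halg hli h => ?_
  refine (logs_ratio t 0 hD l halg hli fun i => ?_).2 rfl
  obtain ⟨x, hx, hxl⟩ := h i
  exact ⟨x, 0, quot_of hx, hx.1, by rwa [zero_mul, add_zero]⟩

theorem bounds_gen' {r : ℕ} (t : Fin r → ℂ) {D : ℕ} (hD : 1 ≤ D) (j : Fin r)
    (htr : Transcendental ℚ (t j)) (htL : t j ∈ Pool.Agent.H301R2.SSE.Lt) :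
    Bounds (ratVals t D) (2 * ((4 * D) ^ r - 2 ^ r) - 1) := by
  refine bounds_of fun m l halg hli h => ?_
  refine (logs_ratio' t 0 hD j htr htL l halg hli fun i => ?_).2 rfl
  obtain ⟨x, hx, hxl⟩ := h i
  exact ⟨x, 0, quot_of hx, hx.1, by rwa [zero_mul, add_zero]⟩

theorem pi_tr : Transcendental ℚ ((Real.pi : ℝ) : ℂ) :=
  ofReal_transcendental Pool.Agent.H340R2.LW.transcendental_pi

theorem e_tr : Transcendental ℚ ((Real.exp 1 : ℝ) : ℂ) :=
  ofReal_transcendental Pool.Agent.H340R2.LW.transcendental_exp_one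

/-- the coordinates are values of polynomials of degree one -/
theorem coord_mem {r : ℕ} (t : Fin r → ℂ) {D : ℕ} (hD : 1 ≤ D) (j : Fin r)
    (h : Transcendental ℚ (t j)) : t j ∈ ratVals t D := by
  refine ⟨h, MvPolynomial.X j, 1, fun i => ?_, fun i => ?_, ?_, ?_⟩
  · rw [MvPolynomial.degreeOf_X]
    split_ifs <;> omega
  · rw [MvPolynomial.degreeOf_one]; exact Nat.zero_le _
  · simp
  · simp

/-- **Main result.** Let `D ≥ 1`. For the definition of `Bounds` see above.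

(1) For arbitrary complex numbers `t_1, ..., t_r` the integers `n` with `n ^ x` in `Prods` for some
transcendental value `x = P(t) / Q(t)`, `P`, `Q` of degree at most `D` in each variable, satisfy the
bounds with `ρ = 2 ((4 D) ^ r - 2 ^ r)`.

(2) For `t = e` this is `ρ = 8 D - 4`; for `t = π` one may take `ρ = 8 D - 5`; for `t = (π, e)` one may
take `ρ = 32 D ^ 2 - 9`. (3) The numbers `π` and `e` are among the exponents.

(4) In particular, if `log N ≥ 64` and `32 D ^ 2 ≤ exp (√(log N) / 3)` then for all but at most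
`N exp (-√(log N))` of the integers `n ≤ N` all the numbers `n ^ x` with a transcendental
`x = P(π, e) / Q(π, e)`, `P`, `Q` of degree at most `D` in each variable, are transcendental.

(5) All nonzero algebraic numbers are in `Prods`. -/
theorem result :
    (∀ (r : ℕ) (t : Fin r → ℂ) (D : ℕ), 1 ≤ D → Bounds (ratVals t D) (2 * ((4 * D) ^ r - 2 ^ r))) ∧
    (∀ D : ℕ, 1 ≤ D →
      Bounds (ratVals ![((Real.exp 1 : ℝ) : ℂ)] D) (8 * D - 4) ∧
      Bounds (ratVals ![((Real.pi : ℝ) : ℂ)] D) (8 * D - 5) ∧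
      Bounds (ratVals ![((Real.pi : ℝ) : ℂ), ((Real.exp 1 : ℝ) : ℂ)] D) (32 * D ^ 2 - 9)) ∧
    (∀ D : ℕ, 1 ≤ D →
      ((Real.exp 1 : ℝ) : ℂ) ∈ ratVals ![((Real.exp 1 : ℝ) : ℂ)] D ∧
      ((Real.pi : ℝ) : ℂ) ∈ ratVals ![((Real.pi : ℝ) : ℂ)] D ∧
      ((Real.exp 1 : ℝ) : ℂ) ∈ ratVals ![((Real.pi : ℝ) : ℂ), ((Real.exp 1 : ℝ) : ℂ)] D ∧
      ((Real.pi : ℝ) : ℂ) ∈ ratVals ![((Real.pi : ℝ) : ℂ), ((Real.exp 1 : ℝ) : ℂ)] D) ∧
    (∀ D N : ℕ, 1 ≤ D → 64 ≤ Real.log N →
      32 * (D : ℝ) ^ 2 ≤ Real.exp (Real.sqrt (Real.log N) / 3) →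
      ∃ B ⊆ Finset.Icc 1 N, (B.card : ℝ) ≤ N * Real.exp (-Real.sqrt (Real.log N)) ∧
        ∀ n ∈ Finset.Icc 1 N, n ∉ B →
          ∀ x ∈ ratVals ![((Real.pi : ℝ) : ℂ), ((Real.exp 1 : ℝ) : ℂ)] D,
            Transcendental ℚ ((n : ℂ) ^ x)) ∧
    (∀ x : ℂ, x ≠ 0 → IsAlgebraic ℚ x → x ∈ Prods) := by
  classical
  have h5 : ∀ x : ℂ, x ≠ 0 → IsAlgebraic ℚ x → x ∈ Prods := by
    intro x hx0 hx
    refine ⟨Complex.log x, Submodule.subset_span (Or.inr ?_), Complex.exp_log hx0⟩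
    change IsAlgebraic ℚ (Complex.exp (Complex.log x))
    rwa [Complex.exp_log hx0]
  have hpe : ∀ D : ℕ, 1 ≤ D →
      Bounds (ratVals ![((Real.pi : ℝ) : ℂ), ((Real.exp 1 : ℝ) : ℂ)] D) (32 * D ^ 2 - 9) := by
    intro D hD
    have h := bounds_gen' ![((Real.pi : ℝ) : ℂ), ((Real.exp 1 : ℝ) : ℂ)] hD 0
      (by simpa using pi_tr) (by simpa using pi_mem_Lt)
    have e1 : 2 * ((4 * D) ^ 2 - 2 ^ 2) - 1 = 32 * D ^ 2 - 9 := by
      have : (4 * D) ^ 2 = 16 * D ^ 2 := by ring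
      rw [this]
      have : 1 ≤ D ^ 2 := Nat.one_le_pow _ _ hD
      omega
    rwa [e1] at h
  refine ⟨fun r t D hD => bounds_gen t hD, fun D hD => ⟨?_, ?_, hpe D hD⟩,
    fun D hD => ⟨?_, ?_, ?_, ?_⟩, ?_, h5⟩
  · have h := bounds_gen ![((Real.exp 1 : ℝ) : ℂ)] hD
    have e1 : 2 * ((4 * D) ^ 1 - 2 ^ 1) = 8 * D - 4 := by
      rw [pow_one, pow_one]; omega
    rwa [e1] at h
  · have h := bounds_gen' ![((Real.pi : ℝ) : ℂ)] hD 0 (by simpa using pi_tr)
      (by simpa using pi_mem_Lt)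
    have e1 : 2 * ((4 * D) ^ 1 - 2 ^ 1) - 1 = 8 * D - 5 := by
      rw [pow_one, pow_one]; omega
    rwa [e1] at h
  · have := coord_mem ![((Real.exp 1 : ℝ) : ℂ)] hD 0 (by simpa using e_tr)
    simpa using this
  · have := coord_mem ![((Real.pi : ℝ) : ℂ)] hD 0 (by simpa using pi_tr)
    simpa using this
  · have := coord_mem ![((Real.pi : ℝ) : ℂ), ((Real.exp 1 : ℝ) : ℂ)] hD 1 (by simpa using e_tr)
    simpa using this
  · have := coord_mem ![((Real.pi : ℝ) : ℂ), ((Real.exp 1 : ℝ) : ℂ)] hD 0 (by simpa using pi_tr)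
    simpa using this
  · intro D N hD hN hDN
    refine ⟨(Finset.Icc 1 N).filter
      (· ∈ Exc (ratVals ![((Real.pi : ℝ) : ℂ), ((Real.exp 1 : ℝ) : ℂ)] D)),
      Finset.filter_subset _ _, ?_, ?_⟩
    · refine (hpe D hD).2.2.2.2 N hN (le_trans ?_ hDN)
      have h1 : 1 ≤ D ^ 2 := Nat.one_le_pow _ _ hD
      have h2 : 32 * D ^ 2 - 9 + 1 ≤ 32 * D ^ 2 := by omega
      exact_mod_cast h2
    · intro n hn hnB x hx halg
      apply hnB
      rw [Finset.mem_filter]
      have hn1 : 1 ≤ n := (Finset.mem_Icc.mp hn).1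
      refine ⟨hn, hn1, x, hx, h5 _ ?_ halg⟩
      rw [natCast_cpow hn1]
      exact Complex.exp_ne_zero _

end Pool.Agent.Results.MP_ee2255_nt.GrowingDegrees
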