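import Pool.Agent.T6.H3.LF.Defs

/-!
# The integers `n` for which `n ^ π` or `n ^ e` lies in a large algebraically closed field

Let `q` be any sequence of integers `≥ 2`, `K` the algebraically closed field of the approximable complex numbers
and `R ⊆ K` the field of the rationally approximable real numbers (`Pool.Agent.T6.H3.LF.Defs`). For an explicit
sequence `q₀` the field `K` has transcendence degree `2 ^ ℵ₀`. Of course `K` contains all algebraic numbers.

**Theorem.** Let `s` be `π` or `e` or any other complex number outside of `R`. (1) The numbers `y = ∑ x_p log p`,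
`x_p ∈ R`, `p` prime, for which `e ^ (s y)` is in `K` form an `R`-vector space of dimension at most TWO (while the
space of all `y` has infinite dimension: the numbers `log p` are linearly independent over `R`, and all the
numbers `e ^ y` are in `K`). (2) For at most `(log₂ N + 1) ^ 2` of the integers `n ≤ N` the number `n ^ s` is in `K`.
(3) For all other `n`, and all `y` outside of this two-dimensional space, the numbers `n ^ (s x_i)`, or `e ^ (s y x_i)`,
are algebraically independent over `K` for all `x_1, …, x_m` in `R` which are linearly independent over `ℚ`.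

So an integer `n ≥ 2` with rational `n ^ π` (or `n ^ e`) belongs to a multiplicative group of rank at most two, which
is still true for the `n` with `n ^ π` in `K`, for a field `K` of transcendence degree `2 ^ ℵ₀`.

The proof: the quantitative six exponentials theorem of the starting files (`Pool.Agent.R347.SX`), which needs lower
bounds for the integer combinations of three numbers `y`; we prove them for all `y_1, y_2, y_3` which are linearly
independent over `R` (`Pool.Agent.T6.H3.LF.Low`).
-/

set_option autoImplicit false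

namespace Pool.Agent.Results.MP_ee2255_nt.LargeFieldRank

open Pool.Agent.T6.H3.LF

/-- the combinations `∑ x_p log p` of the logarithms of the primes with coefficients in `R` -/
noncomputable def M (R : IntermediateField ℚ ℝ) : Submodule R ℝ :=
  Submodule.span R (Set.range fun p : Nat.Primes => Real.log (p : ℕ))

open Classical in
/-- the integers `1 ≤ n ≤ N` with `n ^ s` in `K` -/
noncomputable def badBases (K : IntermediateField ℚ ℂ) (s : ℂ) (N : ℕ) : Finset ℕ :=
  (Finset.Icc 1 N).filter fun n => (n : ℂ) ^ s ∈ K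

/-- the statements (1), (2), (3) for the number `s` -/
def Good (K : IntermediateField ℚ ℂ) (R : IntermediateField ℚ ℝ) (s : ℂ) : Prop :=
  (∃ E : Submodule R ℝ, (∀ y : ℝ, y ∈ E ↔ y ∈ M R ∧ Complex.exp (s * y) ∈ K) ∧
    Module.rank R E ≤ 2) ∧
  (∀ N : ℕ, (badBases K s N).card ≤ (Nat.log 2 N + 1) ^ 2) ∧
  (∀ n : ℕ, 1 ≤ n → (n : ℂ) ^ s ∉ K → ∀ (m : ℕ) (x : Fin m → R), LinearIndependent ℚ x →
    AlgebraicIndependent K fun i => (n : ℂ) ^ (s * ((x i : ℝ) : ℂ))) ∧
  (∀ y : ℝ, Complex.exp (s * y) ∉ K → ∀ (m : ℕ) (x : Fin m → R), LinearIndependent ℚ x →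
    AlgebraicIndependent K fun i => Complex.exp (s * y * ((x i : ℝ) : ℂ)))

/-- **Main result.** -/
theorem result :
    (∀ q : ℕ → ℕ, (∀ k, 2 ≤ q k) →
      ∃ (K : IntermediateField ℚ ℂ) (R : IntermediateField ℚ ℝ), Fields q K R ∧
        LinearIndependent R (fun p : Nat.Primes => Real.log (p : ℕ)) ∧
        (∀ y ∈ M R, Complex.exp ((y : ℝ) : ℂ) ∈ K) ∧
        ((Real.pi : ℝ) : ℂ) ∉ K ∧ ((Real.exp 1 : ℝ) : ℂ) ∉ K ∧
        ∀ s : ℂ, (∀ x ∈ R, s ≠ ((x : ℝ) : ℂ)) → Good K R s) ∧
    Explicit := by
  classical
  refine ⟨fun q hq => ⟨Pool.Agent.R347.LW.UK hq, Pool.Agent.R347.LW.UR hq, fields hq,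
    Pool.Agent.R347.BE.logs_indep hq, fun y hy => exp_M_mem hq hy, Pool.Agent.R347.LW.pi_notMem hq, ?_,
    fun s hs => ⟨⟨EE hq s, fun y => Iff.rfl, rank_EE hq s ?_⟩, fun N => ?_, ?_, ?_⟩⟩, explicit⟩
  · have h1 := Pool.Agent.R347.SX.far_e q hq
    rw [Complex.ofReal_exp, Complex.ofReal_one]
    exact h1
  · rintro ⟨x, hx, hsx⟩
    exact hs x hx hsx
  · refine count_s hq s 0 ?_ N _ fun n hn => ?_
    · rintro ⟨x, hx, hsx⟩
      exact hs x hx hsx
    · unfold badBases at hn
      rw [Finset.mem_filter, Finset.mem_Icc] at hn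
      refine ⟨hn.1, ?_⟩
      have h1 := hn.2
      rw [natCast_cpow hn.1.1] at h1
      rw [add_zero]
      exact h1
  · intro n hn h m x hx
    rw [natCast_cpow hn] at h
    have h1 := Pool.Agent.R347.LW.dich hq (s * ((Real.log n : ℝ) : ℂ)) h m x hx
    have e1 : (fun i => (n : ℂ) ^ (s * ((x i : ℝ) : ℂ))) =
        fun i => Complex.exp (((x i : ℝ) : ℂ) * (s * ((Real.log n : ℝ) : ℂ))) := by
      funext i
      rw [natCast_cpow hn]
      congr 1
      ring
    rw [e1]
    exact h1
  · intro y h m x hx
    have h1 := Pool.Agent.R347.LW.dich hq (s * y) h m x hx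
    have e1 : (fun i => Complex.exp (s * y * ((x i : ℝ) : ℂ))) =
        fun i => Complex.exp (((x i : ℝ) : ℂ) * (s * y)) := by
      funext i
      congr 1
      ring
    rw [e1]
    exact h1

end Pool.Agent.Results.MP_ee2255_nt.LargeFieldRank
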