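import Pool.Agent.T6.H39.TR.Tuples

/-!
# The numbers `m ^ π n ^ e`, and `n_1 ^ x_1 ⋯ n_k ^ x_k` for fixed exponents

Let `x_1, ..., x_k` be arbitrary complex numbers, for instance `π, e`. We bound the number of the tuples
`(n_1, ..., n_k)` of integers between `1` and `N` such that `n_1 ^ x_1 ⋯ n_k ^ x_k` is algebraic (or,
more generally, a number `e ^ γ α_1 ^ β_1 ⋯` with algebraic `γ`, `α_i`, `β_i`) by
`N ^ κ (log₂ N + 1) ^ ((k - κ) d (d - 1))`, where `κ` is the rank of the group of the integer
vectors `a` such that `∑ a_i x_i` is algebraic, and `d` is the dimension of the space spanned by `1` and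
the `x_i` over the field of algebraic numbers. So if no nontrivial integer combination of the `x_i` is
algebraic then the number of these tuples is at most a power of `log N`. For `m ^ π n ^ e` the bounds are
`(log₂ N + 1) ^ 10` if no nontrivial integer combination of `π` and `e` is algebraic, and
`N (log₂ N + 1) ^ 5` otherwise (it is not known that `π + e` is transcendental).

The proof: a relation `∑ x_i log n_i ∈ L` (the space of linear forms in logarithms) is an element of the
space of the vectors `(A_j)` over `L` with `∑ b_j A_j = 0`, whose dimension is at most `d (d - 1)` by the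
hyperplane case of the linear subgroup theorem (starting files). By Baker's theorem this is a bound for
the dimension of the space spanned by the vectors of the coordinates of `∑ v_p(n_i) x_i` modulo
algebraic numbers, `p` prime. So these coordinates are determined by the ones for at most `d (d - 1)`
primes, and with `κ` of the `n_i` they determine the tuple.
-/

set_option autoImplicit false

namespace Pool.Agent.Results.MP_ee2255_nt.MixedPowers

open Module Finset
open Pool.Agent.H301R2.SSE (QB mem_QB Lt Lt_mul Lt_alg Lt_log Lt_one)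
open Pool.Agent.T6.H39.TR

/-- The linear combinations, with algebraic coefficients, of `1` and of logarithms of algebraic
numbers. -/
noncomputable def LogForms : Submodule (algebraicClosure ℚ ℂ) ℂ :=
  Submodule.span (algebraicClosure ℚ ℂ) ({1} ∪ {z : ℂ | IsAlgebraic ℚ (Complex.exp z)})

/-- The numbers `e ^ z` with `z` in `LogForms`, i.e. the numbers `e ^ γ α_1 ^ β_1 ⋯ α_k ^ β_k` with
algebraic `γ`, `α_i ≠ 0`, `β_i`. -/
def Prods : Set ℂ := {x | ∃ z ∈ LogForms, Complex.exp z = x}

open Classical in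
/-- The tuples `(n_1, ..., n_k)` of integers between `1` and `N` such that `n_1 ^ x_1 ⋯ n_k ^ x_k` is in
`Prods`. -/
noncomputable def bad {k : ℕ} (x : Fin k → ℂ) (N : ℕ) : Finset (Fin k → ℕ) :=
  (Fintype.piFinset fun _ => Finset.Icc 1 N).filter fun n => ∏ i, (n i : ℂ) ^ x i ∈ Prods

/-- The rational vectors `a` such that `∑ a_i x_i` is algebraic. -/
noncomputable def relations {k : ℕ} (x : Fin k → ℂ) : Submodule ℚ (Fin k → ℚ) where
  carrier := {a | IsAlgebraic ℚ (∑ i, (a i : ℂ) * x i)}
  add_mem' := by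
    intro a b ha hb
    have h := ha.add hb
    have e : ∑ i, ((a + b) i : ℂ) * x i = ∑ i, (a i : ℂ) * x i + ∑ i, (b i : ℂ) * x i := by
      rw [← Finset.sum_add_distrib]
      refine Finset.sum_congr rfl fun i _ => ?_
      rw [Pi.add_apply]
      push_cast
      ring
    change IsAlgebraic ℚ (∑ i, ((a + b) i : ℂ) * x i)
    rw [e]
    exact h
  zero_mem' := by
    change IsAlgebraic ℚ (∑ i, (((0 : Fin k → ℚ) i : ℚ) : ℂ) * x i)
    have e : ∑ i, (((0 : Fin k → ℚ) i : ℚ) : ℂ) * x i = 0 :=
      Finset.sum_eq_zero fun i _ => by simp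
    rw [e]
    exact isAlgebraic_zero
  smul_mem' := by
    intro c a ha
    have h : IsAlgebraic ℚ ((algebraMap ℚ ℂ c) * ∑ i, (a i : ℂ) * x i) :=
      (isAlgebraic_algebraMap c).mul ha
    have e : ∑ i, ((c • a) i : ℂ) * x i = (algebraMap ℚ ℂ c) * ∑ i, (a i : ℂ) * x i := by
      rw [Finset.mul_sum]
      refine Finset.sum_congr rfl fun i _ => ?_
      rw [Pi.smul_apply, smul_eq_mul]
      push_cast
      simp only [eq_ratCast]
      ring
    change IsAlgebraic ℚ (∑ i, ((c • a) i : ℂ) * x i)
    rw [e]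
    exact h

/-- the space spanned by `1` and the `x_i` -/
noncomputable def sp {k : ℕ} (x : Fin k → ℂ) : Submodule (algebraicClosure ℚ ℂ) ℂ :=
  Submodule.span (algebraicClosure ℚ ℂ) (insert (1 : ℂ) (Set.range x))

theorem prod_cpow {k : ℕ} (n : Fin k → ℕ) (hn : ∀ i, 1 ≤ n i) (x : Fin k → ℂ) :
    ∏ i, (n i : ℂ) ^ x i = Complex.exp (∑ i, x i * lg n i) := by
  rw [Complex.exp_sum]
  exact Finset.prod_congr rfl fun i _ => HP778.natCast_cpow (hn i) _

theorem lg_mem {k : ℕ} {n : Fin k → ℕ} (hn : ∀ i, 1 ≤ n i) (i : Fin k) : lg n i ∈ Lt :=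
  Lt_log (HP778.exp_log_alg (hn i))

theorem basis_data (U : Submodule QB ℂ) [FiniteDimensional QB U] :
    ∃ d, finrank QB U = d ∧ ∃ b : Fin d → ℂ, LinearIndependent QB b ∧
      Submodule.span QB (Set.range b) = U := by
  let b := Module.finBasis QB U
  refine ⟨_, rfl, fun i => (b i : ℂ), b.linearIndependent.map' U.subtype U.ker_subtype, ?_⟩
  have h1 : Set.range (fun i => (b i : ℂ)) = U.subtype '' Set.range b := by
    rw [← Set.range_comp]
    rfl
  rw [h1, ← Submodule.map_span, b.span_eq, Submodule.map_top, Submodule.range_subtype]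

/-- `1` and the logarithms of primes are independent over the algebraic numbers -/
theorem primes_indep {N : ℕ} {g : Fin (N + 1) → QB} {a : QB}
    (hg : ∀ p : Fin (N + 1), ¬ (p : ℕ).Prime → g p = 0)
    (h : ∑ p, g p • ((Real.log ((p : Fin (N + 1)) : ℕ) : ℝ) : ℂ) = a • (1 : ℂ)) :
    g = 0 ∧ a = 0 := by
  classical
  let T := {p : Fin (N + 1) // (p : ℕ).Prime}
  let e := Fintype.equivFin T
  have hli := Pool.Agent.W254.HP.log_primes_indep.comp
    (fun i : Fin (Fintype.card T) => (⟨((e.symm i).1 : ℕ), (e.symm i).2⟩ : Nat.Primes)) (by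
      intro i j hij
      apply e.symm.injective
      exact Subtype.ext (Fin.ext (congrArg Subtype.val hij)))
  have hc := HP778.indep_cons (l := fun i : Fin (Fintype.card T) =>
    ((Real.log (((e.symm i).1 : Fin (N + 1)) : ℕ) : ℝ) : ℂ))
    (fun i => HP778.exp_log_alg (e.symm i).2.one_le) hli
  rw [Fintype.linearIndependent_iff] at hc
  have h1 := hc (fun j => (finSuccEquiv (Fintype.card T) j).elim (-a) fun i => g (e.symm i).1) (by
    rw [← (finSuccEquiv (Fintype.card T)).symm.sum_comp, Fintype.sum_option]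
    simp only [Equiv.apply_symm_apply, Option.elim]
    have h2 : ∑ i : Fin (Fintype.card T), g (e.symm i).1 •
        ((Real.log (((e.symm i).1 : Fin (N + 1)) : ℕ) : ℝ) : ℂ) =
        ∑ p, g p • ((Real.log ((p : Fin (N + 1)) : ℕ) : ℝ) : ℂ) := by
      rw [e.symm.sum_comp (fun p : T => g p.1 • ((Real.log ((p.1 : Fin (N + 1)) : ℕ) : ℝ) : ℂ))]
      rw [← Finset.sum_filter_add_sum_filter_not Finset.univ
        (fun p : Fin (N + 1) => (p : ℕ).Prime)]
      rw [Finset.sum_eq_zero (s := Finset.univ.filter fun p : Fin (N + 1) => ¬ (p : ℕ).Prime)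
        (fun p hp => by rw [hg p (Finset.mem_filter.mp hp).2, zero_smul]), add_zero]
      rw [Finset.sum_subtype (Finset.univ.filter fun p : Fin (N + 1) => (p : ℕ).Prime)
        (p := fun p : Fin (N + 1) => (p : ℕ).Prime) (fun p => by simp)]
    rw [h2, h, neg_smul, neg_add_cancel])
  have h3 := fun o : Option (Fin (Fintype.card T)) => h1 ((finSuccEquiv (Fintype.card T)).symm o)
  simp only [Equiv.apply_symm_apply] at h3
  constructor
  · funext p
    by_cases hp : (p : ℕ).Prime
    · have := h3 (some (e ⟨p, hp⟩))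
      simpa using this
    · exact hg p hp
  · have := h3 none
    simpa using this

theorem log_expand {N n : ℕ} (hn : n ≤ N) : ((Real.log n : ℝ) : ℂ) =
    ∑ p : Fin (N + 1), ((n.factorization p : ℕ) : QB) • ((Real.log (p : ℕ) : ℝ) : ℂ) := by
  rw [← HP778.Lg_vec hn, HP778.Lg_apply]
  refine Finset.sum_congr rfl fun p _ => ?_
  rw [HP778.vec, Algebra.smul_def, Algebra.smul_def, map_natCast, map_natCast]

/-- the coordinates of `∑ v_p(n_i) x_i` modulo constants -/
noncomputable def wv {k d : ℕ} (C : Fin k → Fin d → QB) (N : ℕ) (n : Fin k → ℕ) :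
    Fin (N + 1) × Fin d → QB :=
  fun pj => ∑ i, C i pj.2 * (((n i).factorization pj.1 : ℕ) : QB)

/-- the map to the logarithms -/
noncomputable def LL (N d : ℕ) : (Fin (N + 1) × Fin d → QB) →ₗ[QB] (Fin d → ℂ) where
  toFun w := fun j => ∑ p : Fin (N + 1), w (p, j) • ((Real.log (p : ℕ) : ℝ) : ℂ)
  map_add' w w' := by
    funext j
    simp only [Pi.add_apply, add_smul, Finset.sum_add_distrib]
  map_smul' a w := by
    funext j
    simp only [Pi.smul_apply, smul_eq_mul, RingHom.id_apply, Finset.smul_sum, smul_smul]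

theorem LL_apply {N d : ℕ} (w : Fin (N + 1) × Fin d → QB) (j : Fin d) :
    LL N d w j = ∑ p : Fin (N + 1), w (p, j) • ((Real.log (p : ℕ) : ℝ) : ℂ) := rfl

theorem LL_wv {k d : ℕ} (C : Fin k → Fin d → QB) {N : ℕ} {n : Fin k → ℕ} (hn : ∀ i, n i ≤ N)
    (j : Fin d) : LL N d (wv C N n) j = ∑ i, C i j • lg n i := by
  rw [LL_apply]
  simp only [wv, Finset.sum_smul]
  rw [Finset.sum_comm]
  refine Finset.sum_congr rfl fun i _ => ?_
  rw [lg, log_expand (hn i), Finset.smul_sum]
  refine Finset.sum_congr rfl fun p _ => ?_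
  rw [mul_smul]

theorem bad_le {k : ℕ} (x : Fin k → ℂ) (N : ℕ) :
    (bad x N).card ≤ N ^ finrank ℚ (relations x) * (Nat.log 2 N + 1) ^
      ((k - finrank ℚ (relations x)) * (finrank QB (sp x) * (finrank QB (sp x) - 1))) ∧
    ((∃ t ∈ sp x, Transcendental ℚ t ∧ t ∈ Lt) →
      (bad x N).card ≤ N ^ finrank ℚ (relations x) * (Nat.log 2 N + 1) ^
      ((k - finrank ℚ (relations x)) *
        (finrank QB (sp x) * (finrank QB (sp x) - 1) - 1))) := by
  classical
  have hfin : FiniteDimensional QB (sp x) :=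
    FiniteDimensional.span_of_finite QB ((Set.finite_range x).insert 1)
  have h1U : (1 : ℂ) ∈ sp x := Submodule.subset_span (Or.inl rfl)
  have hxU : ∀ i, x i ∈ sp x := fun i => Submodule.subset_span (Or.inr ⟨i, rfl⟩)
  obtain ⟨d, hd, b, hb, hbU⟩ := basis_data (sp x)
  rw [hd]
  obtain ⟨q, hq⟩ := (Submodule.mem_span_range_iff_exists_fun QB).mp (hbU.symm ▸ h1U)
  obtain ⟨l₀, hl₀⟩ : ∃ l₀, q l₀ ≠ 0 := by
    by_contra hcon
    push Not at hcon
    apply one_ne_zero (α := ℂ)
    rw [← hq]
    exact Finset.sum_eq_zero fun j _ => by rw [hcon j, zero_smul]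
  choose c hc using fun i => (Submodule.mem_span_range_iff_exists_fun QB).mp (hbU.symm ▸ hxU i)
  obtain ⟨hfd, hfr⟩ := RW_fd HP778.hyper_Lt hb ⊥
  rw [finrank_bot, add_zero] at hfr
  -- the coordinates modulo constants
  set C : Fin k → Fin d → QB := fun i j => c i j - q j / q l₀ * c i l₀ with hC
  let φ : (Fin d → ℂ) →ₗ[QB] (Fin d → ℂ) := LinearMap.pi fun j => fun1 q l₀ j
  have hbad : ∀ n, n ∈ bad x N ↔ (∀ i, 1 ≤ n i ∧ n i ≤ N) ∧ ∏ i, (n i : ℂ) ^ x i ∈ Prods := by
    intro n
    unfold bad
    rw [Finset.mem_filter, Fintype.mem_piFinset]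
    simp only [Finset.mem_Icc]
  -- the vector of a bad tuple
  have hvec : ∀ n ∈ bad x N, ∃ A ∈ RW Lt b ⊥, LL N d (wv C N n) = φ A := by
    intro n hn
    obtain ⟨hnN, z, hz, hze⟩ := (hbad n).mp hn
    have hn1 : ∀ i, 1 ≤ n i := fun i => (hnN i).1
    rw [prod_cpow n hn1] at hze
    have h2 : ∑ i, x i * lg n i ∈ Lt := HP778.mem_of_exp hz hze.symm
    have h3 := rel_mem (V := Lt) (b := b) (W := ⊥) (Q := 1) (w := 0) (fun i => lg_mem hn1 i) h2
      (Submodule.zero_mem _) (fun i => (hc i).symm) hq.symm (by rw [one_mul, add_zero])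
    refine ⟨_, h3, ?_⟩
    funext j
    rw [LL_wv C (fun i => (hnN i).2) j]
    change _ = fun1 q l₀ j _
    rw [fun1_apply]
    have h4 : ∑ i, C i j • lg n i =
        ∑ i, c i j • lg n i - (q j / q l₀) • ∑ i, c i l₀ • lg n i := by
      rw [Finset.smul_sum, ← Finset.sum_sub_distrib]
      refine Finset.sum_congr rfl fun i _ => ?_
      rw [hC, sub_smul, smul_smul]
    rw [h4, smul_sub, smul_smul, div_mul_cancel₀ _ hl₀]
    ring
  set T : Submodule QB (Fin (N + 1) × Fin d → QB) :=
    Submodule.span QB ((fun n => wv C N n) '' (bad x N : Set (Fin k → ℕ))) with hT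
  -- elements of `T` vanish outside of the primes
  have hTp : ∀ w ∈ T, ∀ p : Fin (N + 1), ¬ (p : ℕ).Prime → ∀ j, w (p, j) = 0 := by
    intro w hw p hp j
    have h1 : T ≤ LinearMap.ker (LinearMap.proj (p, j) :
        (Fin (N + 1) × Fin d → QB) →ₗ[QB] QB) := by
      rw [hT, Submodule.span_le]
      rintro _ ⟨n, _, rfl⟩
      change wv C N n (p, j) = 0
      refine Finset.sum_eq_zero fun i _ => ?_
      change C i j * (((n i).factorization (p : ℕ) : ℕ) : QB) = 0
      rw [Nat.factorization_eq_zero_of_not_prime _ hp, Nat.cast_zero, mul_zero]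
    exact h1 hw
  have hTmap : T.map (LL N d) ≤ (RW Lt b ⊥).map φ := by
    rw [hT, Submodule.map_span, Submodule.span_le]
    rintro _ ⟨_, ⟨n, hn, rfl⟩, rfl⟩
    obtain ⟨A, hA, hAe⟩ := hvec n hn
    exact ⟨A, hA, hAe.symm⟩
  have hker : ∀ w ∈ T, ∀ a : Fin d → QB, LL N d w = (fun j => a j • (1 : ℂ)) → w = 0 ∧ a = 0 := by
    intro w hw a h
    have h1 : ∀ j, (fun p => w (p, j)) = 0 ∧ a j = 0 := fun j =>
      primes_indep (fun p hp => hTp w hw p hp j) (congrFun h j)
    exact ⟨funext fun pj => congrFun (h1 pj.2).1 pj.1, funext fun j => (h1 j).2⟩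
  have hTeq : finrank QB (T.map (LL N d)) = finrank QB T := by
    have hinj : Function.Injective ((LL N d).domRestrict T) := by
      rw [← LinearMap.ker_eq_bot, Submodule.eq_bot_iff]
      intro w hw
      apply Subtype.ext
      have h2 : LL N d (w : Fin (N + 1) × Fin d → QB) = 0 := LinearMap.mem_ker.mp hw
      exact (hker w w.2 0 (by rw [h2]; funext j; simp)).1
    have h3 := LinearMap.finrank_range_of_inj hinj
    rwa [LinearMap.domRestrict, LinearMap.range_comp, Submodule.range_subtype] at h3
  have hmain : ∀ ρ : ℕ, finrank QB T ≤ ρ → (bad x N).card ≤ N ^ finrank ℚ (relations x) *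
      (Nat.log 2 N + 1) ^ ((k - finrank ℚ (relations x)) * ρ) := by
    intro ρ hρ
    obtain ⟨s, hs, hsep⟩ := HP778.exists_coords T
    obtain ⟨I, hI, hIsep⟩ := HP778.exists_coords (relations x)
    have hIc : I.card = finrank ℚ (relations x) := by
      refine le_antisymm hI ?_
      let ψ : relations x →ₗ[ℚ] (I → ℚ) := LinearMap.pi fun i =>
        (LinearMap.proj (i : Fin k)).comp (relations x).subtype
      have hψ : Function.Injective ψ := by
        rw [← LinearMap.ker_eq_bot, Submodule.eq_bot_iff]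
        intro a ha
        apply Subtype.ext
        refine hIsep a a.2 fun i hi => ?_
        exact congrFun (LinearMap.mem_ker.mp ha) ⟨i, hi⟩
      have := LinearMap.finrank_le_finrank_of_injective hψ
      rwa [Module.finrank_fintype_fun_eq_card, Fintype.card_coe] at this
    let P : Finset (Fin (N + 1)) := s.image Prod.fst
    have hP : P.card ≤ ρ := (Finset.card_image_le.trans hs).trans hρ
    let f : (Fin k → ℕ) → (I → ℕ) × (({i // i ∉ I} × P) → ℕ) := fun n =>
      (fun i => n i, fun ip => (n ip.1).factorization (ip.2 : Fin (N + 1)))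
    have hinj : Set.InjOn f (bad x N : Set (Fin k → ℕ)) := by
      intro n hn n' hn' heq
      have hn0 := (hbad n).mp hn
      have hn0' := (hbad n').mp hn'
      have e1 : ∀ i ∈ I, n i = n' i := fun i hi => congrFun (congrArg Prod.fst heq) ⟨i, hi⟩
      have e2 : ∀ i, i ∉ I → ∀ p ∈ P, (n i).factorization (p : ℕ) =
          (n' i).factorization (p : ℕ) := fun i hi p hp =>
        congrFun (congrArg Prod.snd heq) (⟨i, hi⟩, ⟨p, hp⟩)
      have h1 : wv C N n - wv C N n' ∈ T :=
        T.sub_mem (Submodule.subset_span ⟨n, hn, rfl⟩) (Submodule.subset_span ⟨n', hn', rfl⟩)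
      have h2 : wv C N n - wv C N n' = 0 := by
        refine hsep _ h1 fun pj hpj => ?_
        rw [Pi.sub_apply, sub_eq_zero]
        refine Finset.sum_congr rfl fun i _ => ?_
        by_cases hi : i ∈ I
        · rw [e1 i hi]
        · rw [e2 i hi pj.1 (Finset.mem_image_of_mem _ hpj)]
      have h3 : ∀ p : Fin (N + 1), ∀ i,
          (((n i).factorization (p : ℕ) : ℕ) : ℚ) - ((n' i).factorization (p : ℕ) : ℕ) = 0 := by
        intro p
        let a : Fin k → ℚ := fun i =>
          (((n i).factorization (p : ℕ) : ℕ) : ℚ) - ((n' i).factorization (p : ℕ) : ℕ)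
        have ha : a ∈ relations x := by
          have h4 : ∀ j, ∑ i, C i j * ((a i : ℚ) : QB) = 0 := by
            intro j
            have h5 := congrFun h2 (p, j)
            simp only [Pi.sub_apply, wv, Pi.zero_apply] at h5
            rw [← Finset.sum_sub_distrib] at h5
            rw [← h5]
            refine Finset.sum_congr rfl fun i _ => ?_
            simp only [a]
            push_cast
            ring
          change IsAlgebraic ℚ (∑ i, (a i : ℂ) * x i)
          have h6 : ∑ i, (a i : ℂ) * x i =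
              algebraMap QB ℂ (∑ i, ((a i : ℚ) : QB) * c i l₀ / q l₀) := by
            have h7 : ∀ j, ∑ i, ((a i : ℚ) : QB) * c i j =
                q j * ∑ i, ((a i : ℚ) : QB) * c i l₀ / q l₀ := by
              intro j
              have h8 := h4 j
              simp only [hC, sub_mul, Finset.sum_sub_distrib, sub_eq_zero] at h8
              rw [Finset.mul_sum]
              calc ∑ i, ((a i : ℚ) : QB) * c i j = ∑ i, c i j * ((a i : ℚ) : QB) :=
                    Finset.sum_congr rfl fun i _ => mul_comm _ _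
                _ = ∑ i, q j / q l₀ * c i l₀ * ((a i : ℚ) : QB) := h8
                _ = _ := Finset.sum_congr rfl fun i _ => by ring
            calc ∑ i, (a i : ℂ) * x i = ∑ i, ((a i : ℚ) : QB) • x i := by
                  refine Finset.sum_congr rfl fun i _ => ?_
                  rw [Algebra.smul_def, map_ratCast]
              _ = ∑ i, ((a i : ℚ) : QB) • ∑ j, c i j • b j :=
                Finset.sum_congr rfl fun i _ => by rw [hc i]
              _ = ∑ j, (∑ i, ((a i : ℚ) : QB) * c i j) • b j := by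
                simp only [Finset.smul_sum, Finset.sum_smul, smul_smul]
                rw [Finset.sum_comm]
              _ = (∑ i, ((a i : ℚ) : QB) * c i l₀ / q l₀) • ∑ j, q j • b j := by
                rw [Finset.smul_sum]
                refine Finset.sum_congr rfl fun j _ => ?_
                rw [h7 j, smul_smul, mul_comm]
              _ = _ := by rw [hq, Algebra.smul_def, mul_one]
          rw [h6]
          exact mem_QB.mp (Subtype.mem _)
        have h9 := hIsep a ha fun i hi => by
          simp only [a, e1 i hi, sub_self]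
        exact fun i => congrFun h9 i
      funext i
      apply Nat.eq_of_factorization_eq (by have := (hn0.1 i).1; omega)
        (by have := (hn0'.1 i).1; omega)
      intro p
      by_cases hp : p < N + 1
      · have h4 := h3 ⟨p, hp⟩ i
        rw [sub_eq_zero] at h4
        exact_mod_cast h4
      · have h5 := (hn0.1 i).2
        have h6 := (hn0'.1 i).2
        rw [Nat.factorization_eq_zero_of_lt (by omega), Nat.factorization_eq_zero_of_lt (by omega)]
    have hcard := Finset.card_le_card_of_injOn (t := (Fintype.piFinset fun _ : I =>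
      Finset.Icc 1 N) ×ˢ (Fintype.piFinset fun _ : {i // i ∉ I} × P =>
        Finset.range (Nat.log 2 N + 1))) f (by
      intro n hn
      have hn0 := (hbad n).mp hn
      rw [Finset.mem_coe, Finset.mem_product, Fintype.mem_piFinset, Fintype.mem_piFinset]
      refine ⟨fun i => Finset.mem_Icc.mpr (hn0.1 i), fun ip => ?_⟩
      rw [Finset.mem_range]
      change (n ip.1).factorization ((ip.2 : Fin (N + 1)) : ℕ) < Nat.log 2 N + 1
      obtain ⟨hn1, hnN⟩ := hn0.1 ip.1
      by_cases hp : ((ip.2 : Fin (N + 1)) : ℕ).Prime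
      · have h1 : ((ip.2 : Fin (N + 1)) : ℕ) ^ (n ip.1).factorization (ip.2 : Fin (N + 1)) ≤
            n ip.1 := Nat.le_of_dvd (by omega) (Nat.ordProj_dvd _ _)
        have h2 : 2 ^ (n ip.1).factorization (ip.2 : Fin (N + 1)) ≤ N :=
          ((Nat.pow_le_pow_left hp.two_le _).trans h1).trans hnN
        have h3 := Nat.le_log_of_pow_le (by norm_num) h2
        omega
      · rw [Nat.factorization_eq_zero_of_not_prime _ hp]
        omega) hinj
    rw [Finset.card_product, Fintype.card_piFinset, Fintype.card_piFinset, Finset.prod_const,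
      Finset.prod_const, Nat.card_Icc, Nat.add_sub_cancel, Finset.card_range, Finset.card_univ,
      Finset.card_univ, Fintype.card_coe, Fintype.card_prod, Fintype.card_coe, hIc] at hcard
    refine hcard.trans (Nat.mul_le_mul_left _ (Nat.pow_le_pow_right (by omega) ?_))
    have h1 : Fintype.card {i // i ∉ I} = k - finrank ℚ (relations x) := by
      rw [Fintype.card_subtype_compl, Fintype.card_fin, Fintype.card_coe, hIc]
    rw [h1]
    exact Nat.mul_le_mul_left _ hP
  constructor
  · apply hmain
    rw [← hTeq]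
    refine (Submodule.finrank_mono hTmap).trans ((Submodule.finrank_map_le _ _).trans hfr)
  · rintro ⟨t, htU, ht, htL⟩
    apply hmain
    obtain ⟨p, hp⟩ := (Submodule.mem_span_range_iff_exists_fun QB).mp (hbU.symm ▸ htU)
    set A : Fin d → ℂ := fun j => p j • (1 : ℂ) - q j • t with hA
    have hAmem : A ∈ RW Lt b ⊥ := by
      refine ⟨fun j => Lt.sub_mem (Lt.smul_mem _ Lt_one) (Lt.smul_mem _ htL), ?_⟩
      have h5 : ∑ j, b j * A j = 0 := by
        simp only [hA, mul_sub, Finset.sum_sub_distrib]
        rw [← expand p t 1 hp.symm, ← expand q 1 t hq.symm]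
        ring
      rw [h5]
      exact Submodule.zero_mem _
    let a : Fin d → QB := fun j => p j - q j / q l₀ * p l₀
    have hφA : φ A = fun j => a j • (1 : ℂ) := by
      funext j
      change fun1 q l₀ j A = _
      rw [fun1_apply]
      simp only [hA, a]
      rw [smul_sub, smul_smul, smul_smul, div_mul_cancel₀ _ hl₀, sub_smul]
      ring
    have ha0 : a ≠ 0 := by
      intro h0
      have h1 : ∀ j, p j = q j * (p l₀ / q l₀) := by
        intro j
        have := congrFun h0 j
        simp only [a, Pi.zero_apply, sub_eq_zero] at this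
        rw [this]; ring
      apply ht
      have h2 : t = algebraMap QB ℂ (p l₀ / q l₀) := by
        rw [← hp, Finset.sum_congr rfl fun j _ => by rw [h1 j, mul_comm, mul_smul],
          ← Finset.smul_sum, hq, Algebra.smul_def, mul_one]
      rw [h2]
      exact mem_QB.mp (p l₀ / q l₀ : QB).2
    have hφA0 : φ A ≠ 0 := by
      intro h0
      apply ha0
      funext j
      have h1 := congrFun (hφA.symm.trans h0) j
      rw [Pi.zero_apply, Algebra.smul_def, mul_one] at h1
      exact (map_eq_zero _).mp h1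
    have hdisj : Disjoint (T.map (LL N d)) (Submodule.span QB {φ A}) := by
      rw [Submodule.disjoint_span_singleton' hφA0]
      rintro ⟨w, hw, hwe⟩
      rw [hφA] at hwe
      exact ha0 (hker w hw a hwe).2
    have h1 := Submodule.finrank_sup_add_finrank_inf_eq (T.map (LL N d))
      (Submodule.span QB {φ A})
    rw [hdisj.eq_bot, finrank_bot, add_zero] at h1
    have h2 : T.map (LL N d) ⊔ Submodule.span QB {φ A} ≤ (RW Lt b ⊥).map φ := by
      refine sup_le hTmap ?_
      rw [Submodule.span_singleton_le_iff_mem]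
      exact ⟨A, hAmem, rfl⟩
    have h3 := (Submodule.finrank_mono h2).trans ((Submodule.finrank_map_le _ _).trans hfr)
    rw [finrank_span_singleton hφA0, hTeq] at h1
    omega

theorem pi_tr : Transcendental ℚ ((Real.pi : ℝ) : ℂ) :=
  HP778.ofReal_transcendental Pool.Agent.H340R2.LW.transcendental_pi

theorem e_tr : Transcendental ℚ ((Real.exp 1 : ℝ) : ℂ) :=
  HP778.ofReal_transcendental Pool.Agent.H340R2.LW.transcendental_exp_one

/-- **Main result.** Let `x_1, ..., x_k` be complex numbers, `κ` the dimension of the space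
`relations x` of the rational vectors `a` such that `∑ a_i x_i` is algebraic, and `d` the dimension of the
space spanned by `1, x_1, ..., x_k` over the field of algebraic numbers.

(1) For at most `N ^ κ (log₂ N + 1) ^ ((k - κ) d (d - 1))` of the tuples `(n_1, ..., n_k)` of integers
between `1` and `N` the number `n_1 ^ x_1 ⋯ n_k ^ x_k` is in `Prods`; if the space contains a
transcendental linear form in logarithms then `d (d - 1)` may be replaced by `d (d - 1) - 1`.

(2) If no integer combination `a π + b e`, `(a, b) ≠ (0, 0)`, is algebraic then `m ^ π n ^ e` is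
transcendental for all but at most `(log₂ N + 1) ^ 10` of the pairs `(m, n)` of integers between `1`
and `N`. (3) Otherwise this is true for all but at most `N (log₂ N + 1) ^ 5` pairs.

(4) All nonzero algebraic numbers are in `Prods`. -/
theorem result :
    (∀ (k : ℕ) (x : Fin k → ℂ) (N : ℕ),
      (bad x N).card ≤ N ^ finrank ℚ (relations x) * (Nat.log 2 N + 1) ^
        ((k - finrank ℚ (relations x)) * (finrank (algebraicClosure ℚ ℂ) (sp x) *
          (finrank (algebraicClosure ℚ ℂ) (sp x) - 1))) ∧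
      ((∃ t ∈ sp x, Transcendental ℚ t ∧ t ∈ LogForms) →
        (bad x N).card ≤ N ^ finrank ℚ (relations x) * (Nat.log 2 N + 1) ^
          ((k - finrank ℚ (relations x)) * (finrank (algebraicClosure ℚ ℂ) (sp x) *
            (finrank (algebraicClosure ℚ ℂ) (sp x) - 1) - 1)))) ∧
    ((∀ a b : ℤ, (a, b) ≠ (0, 0) → Transcendental ℚ (a * Real.pi + b * Real.exp 1)) →
      ∀ N : ℕ, ∃ B : Finset (ℕ × ℕ), B.card ≤ (Nat.log 2 N + 1) ^ 10 ∧
        ∀ m n : ℕ, 1 ≤ m → m ≤ N → 1 ≤ n → n ≤ N → (m, n) ∉ B →
          Transcendental ℚ ((m : ℝ) ^ Real.pi * (n : ℝ) ^ Real.exp 1)) ∧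
    ((∃ a b : ℤ, (a, b) ≠ (0, 0) ∧ IsAlgebraic ℚ (a * Real.pi + b * Real.exp 1)) →
      ∀ N : ℕ, ∃ B : Finset (ℕ × ℕ), B.card ≤ N * (Nat.log 2 N + 1) ^ 5 ∧
        ∀ m n : ℕ, 1 ≤ m → m ≤ N → 1 ≤ n → n ≤ N → (m, n) ∉ B →
          Transcendental ℚ ((m : ℝ) ^ Real.pi * (n : ℝ) ^ Real.exp 1)) ∧
    (∀ x : ℂ, x ≠ 0 → IsAlgebraic ℚ x → x ∈ Prods) := by
  classical
  have h5 : ∀ x : ℂ, x ≠ 0 → IsAlgebraic ℚ x → x ∈ Prods := by
    intro x hx0 hx
    refine ⟨Complex.log x, Submodule.subset_span (Or.inr ?_), Complex.exp_log hx0⟩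
    change IsAlgebraic ℚ (Complex.exp (Complex.log x))
    rwa [Complex.exp_log hx0]
  let x : Fin 2 → ℂ := ![((Real.pi : ℝ) : ℂ), ((Real.exp 1 : ℝ) : ℂ)]
  have hsp : finrank QB (sp x) ≤ 3 := by
    have h1 : (sp x : Submodule QB ℂ) ≤ Submodule.span QB
        (Set.range ![(1 : ℂ), ((Real.pi : ℝ) : ℂ), ((Real.exp 1 : ℝ) : ℂ)]) := by
      unfold sp
      rw [Submodule.span_le]
      rintro y (rfl | ⟨i, rfl⟩)
      · exact Submodule.subset_span ⟨0, rfl⟩
      · fin_cases i
        · exact Submodule.subset_span ⟨1, rfl⟩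
        · exact Submodule.subset_span ⟨2, rfl⟩
    have hfd := fd_range ![(1 : ℂ), ((Real.pi : ℝ) : ℂ), ((Real.exp 1 : ℝ) : ℂ)]
    refine (Submodule.finrank_mono h1).trans ((finrank_range_le_card _).trans ?_)
    rw [Fintype.card_fin]
  have hpi : ((Real.pi : ℝ) : ℂ) ∈ sp x := Submodule.subset_span (Or.inr ⟨0, rfl⟩)
  have hexp : finrank QB (sp x) * (finrank QB (sp x) - 1) - 1 ≤ 5 := by
    have : finrank QB (sp x) * (finrank QB (sp x) - 1) ≤ 3 * 2 :=
      Nat.mul_le_mul hsp (by omega)
    omega
  have hB := fun N : ℕ => (bad_le x N).2 ⟨_, hpi, pi_tr, HP778.pi_mem_Lt⟩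
  have hrelmem : ∀ a : Fin 2 → ℚ, a ∈ relations x ↔
      IsAlgebraic ℚ ((a 0 : ℝ) * Real.pi + (a 1 : ℝ) * Real.exp 1) := by
    intro a
    have h1 : ∑ i, (a i : ℂ) * x i =
        (((a 0 : ℝ) * Real.pi + (a 1 : ℝ) * Real.exp 1 : ℝ) : ℂ) := by
      rw [Fin.sum_univ_two]
      simp only [x, Matrix.cons_val_zero, Matrix.cons_val_one]
      push_cast
      rfl
    change IsAlgebraic ℚ (∑ i, (a i : ℂ) * x i) ↔ _
    rw [h1]
    constructor
    · intro h
      by_contra h'
      exact HP778.ofReal_transcendental h' h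
    · intro h
      exact (isAlgebraic_algebraMap_iff (A := ℂ) (FaithfulSMul.algebraMap_injective ℝ ℂ)).mpr h
  have hint : ∀ a : Fin 2 → ℚ, a ∈ relations x → ∃ u v : ℤ,
      ((u, v) = (0, 0) → a = 0) ∧ IsAlgebraic ℚ (u * Real.pi + v * Real.exp 1) := by
    intro a ha
    let D : ℤ := (a 0).den * (a 1).den
    have hD : (D : ℚ) ≠ 0 := by
      simp only [D]
      push_cast
      exact mul_ne_zero (by exact_mod_cast (a 0).den_nz) (by exact_mod_cast (a 1).den_nz)
    let u : ℤ := (a 0).num * (a 1).den
    let v : ℤ := (a 1).num * (a 0).den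
    have hu : (u : ℚ) = D * a 0 := by
      simp only [u, D]
      push_cast
      have := Rat.mul_den_eq_num (a 0)
      linear_combination (-((a 1).den : ℚ)) * this
    have hv : (v : ℚ) = D * a 1 := by
      simp only [v, D]
      push_cast
      have := Rat.mul_den_eq_num (a 1)
      linear_combination (-((a 0).den : ℚ)) * this
    refine ⟨u, v, fun h => ?_, ?_⟩
    · have h1 : u = 0 := congrArg Prod.fst h
      have h2 : v = 0 := congrArg Prod.snd h
      rw [h1, Int.cast_zero] at hu
      rw [h2, Int.cast_zero] at hv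
      funext i
      fin_cases i
      · exact (mul_eq_zero.mp hu.symm).resolve_left hD
      · exact (mul_eq_zero.mp hv.symm).resolve_left hD
    · have h1 := (hrelmem _).mp ((relations x).smul_mem (D : ℚ) ha)
      have e1 : (((((D : ℚ) • a) 0 : ℚ) : ℝ) * Real.pi + ((((D : ℚ) • a) 1 : ℚ) : ℝ) *
          Real.exp 1) = (u : ℝ) * Real.pi + (v : ℝ) * Real.exp 1 := by
        have e2 : (((D : ℚ) • a) 0 : ℚ) = (u : ℚ) := by rw [hu, Pi.smul_apply, smul_eq_mul]
        have e3 : (((D : ℚ) • a) 1 : ℚ) = (v : ℚ) := by rw [hv, Pi.smul_apply, smul_eq_mul]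
        rw [e2, e3]
        push_cast
        rfl
      rwa [e1] at h1
  have hfin : ∀ (N r : ℕ), (bad x N).card ≤ r → ∃ B : Finset (ℕ × ℕ), B.card ≤ r ∧
        ∀ m n : ℕ, 1 ≤ m → m ≤ N → 1 ≤ n → n ≤ N → (m, n) ∉ B →
          Transcendental ℚ ((m : ℝ) ^ Real.pi * (n : ℝ) ^ Real.exp 1) := by
    intro N r hr
    refine ⟨(bad x N).image fun n => (n 0, n 1), Finset.card_image_le.trans hr, ?_⟩
    intro m n hm hmN hn hnN hmn halg
    apply hmn
    rw [Finset.mem_image]
    refine ⟨![m, n], ?_, rfl⟩
    unfold bad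
    rw [Finset.mem_filter, Fintype.mem_piFinset]
    refine ⟨fun i => ?_, ?_⟩
    · rw [Finset.mem_Icc]
      fin_cases i
      · exact ⟨hm, hmN⟩
      · exact ⟨hn, hnN⟩
    · rw [Fin.prod_univ_two]
      change (m : ℂ) ^ ((Real.pi : ℝ) : ℂ) * (n : ℂ) ^ ((Real.exp 1 : ℝ) : ℂ) ∈ Prods
      have e1 : (m : ℂ) ^ ((Real.pi : ℝ) : ℂ) * (n : ℂ) ^ ((Real.exp 1 : ℝ) : ℂ) =
          (((m : ℝ) ^ Real.pi * (n : ℝ) ^ Real.exp 1 : ℝ) : ℂ) := by
        rw [Complex.ofReal_mul, Complex.ofReal_cpow (Nat.cast_nonneg m),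
          Complex.ofReal_cpow (Nat.cast_nonneg n), Complex.ofReal_natCast, Complex.ofReal_natCast]
      rw [e1]
      refine h5 _ ?_ ?_
      · have hm0 : (0 : ℝ) < m := by exact_mod_cast hm
        have hn0 : (0 : ℝ) < n := by exact_mod_cast hn
        exact_mod_cast (mul_pos (Real.rpow_pos_of_pos hm0 _) (Real.rpow_pos_of_pos hn0 _)).ne'
      · exact (isAlgebraic_algebraMap_iff (A := ℂ)
          (FaithfulSMul.algebraMap_injective ℝ ℂ)).mpr halg
  refine ⟨fun k x N => bad_le x N, fun h N => ?_, fun h N => ?_, h5⟩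
  · apply hfin
    have h0 : finrank ℚ (relations x) = 0 := by
      rw [Submodule.finrank_eq_zero, Submodule.eq_bot_iff]
      intro a ha
      obtain ⟨u, v, h1, h2⟩ := hint a ha
      by_contra hne
      exact h u v (fun h3 => hne (h1 h3)) h2
    have h1 := hB N
    rw [h0, pow_zero, one_mul] at h1
    exact h1.trans (Nat.pow_le_pow_right (by omega) (by omega))
  · apply hfin
    obtain ⟨u, v, huv, halg⟩ := h
    have hle : finrank ℚ (relations x) ≤ 1 := by
      by_contra hcon
      have h2 : finrank ℚ (relations x) = finrank ℚ (Fin 2 → ℚ) := by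
        refine le_antisymm (Submodule.finrank_le _) ?_
        rw [Module.finrank_fintype_fun_eq_card, Fintype.card_fin]
        omega
      have h3 := Submodule.eq_top_of_finrank_eq h2
      have h4 : (![1, 0] : Fin 2 → ℚ) ∈ relations x := by rw [h3]; trivial
      rw [hrelmem] at h4
      apply Pool.Agent.H340R2.LW.transcendental_pi
      simpa using h4
    have hge : 1 ≤ finrank ℚ (relations x) := by
      by_contra hcon
      have h2 : finrank ℚ (relations x) = 0 := by omega
      rw [Submodule.finrank_eq_zero, Submodule.eq_bot_iff] at h2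
      have h3 := h2 (![(u : ℚ), (v : ℚ)] : Fin 2 → ℚ) (by
        rw [hrelmem]
        simpa using halg)
      apply huv
      have e0 := congrFun h3 0
      have e1 := congrFun h3 1
      simp only [Matrix.cons_val_zero, Matrix.cons_val_one, Pi.zero_apply] at e0 e1
      have e0' : u = 0 := by exact_mod_cast e0
      have e1' : v = 0 := by exact_mod_cast e1
      rw [e0', e1']
    have heq : finrank ℚ (relations x) = 1 := le_antisymm hle hge
    have h1 := hB N
    rw [heq, pow_one] at h1
    refine h1.trans (Nat.mul_le_mul_left _ (Nat.pow_le_pow_right (by omega) (by omega)))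

end Pool.Agent.Results.MP_ee2255_nt.MixedPowers
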