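import Pool.Agent.T6.H3.LF.Exps

/-!
# The exponents `P(π)` and `P(e)` for which `n ^ P(π)` and `m ^ P(π)` lie in a large algebraically closed field

Let `q` be any sequence of integers `≥ 2`, `K` the algebraically closed field of the approximable complex numbers
and `R ⊆ K` the field of the rationally approximable real numbers (`Pool.Agent.T6.H3.LF.Defs`). For an explicit
sequence `q₀` the field `K` has transcendence degree `2 ^ ℵ₀`. Of course `K` contains all algebraic numbers.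

**Theorem.** Let `t` be `π`, `e`, or any other number which is not in such a field `K`, for any sequence `q`, and let
`W = R[t]` be the space of the polynomials in `t` with coefficients in `R`. (1) For all logarithms `l₀`, `l₁` of elements
of `K` which are linearly independent over `R` the numbers `u` in `W` for which both `e ^ (l₀ u)` and `e ^ (l₁ u)` are in
`K` form an `R`-vector space of dimension at most TWO, which contains `R`. (2) So for multiplicatively independent
integers `n, m ≥ 2` the `u` in `W` for which both `n ^ u` and `m ^ u` are in `K` form a space of dimension at most two,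
which contains `R`; for at most ONE exponent `j ≥ 1` both `n ^ (t ^ j)` and `m ^ (t ^ j)` are in `K`.
(3) The numbers `π`, `e ^ α` for algebraic `α ≠ 0`, and `log p` for primes `p`, are of this kind, and so is every
`u` such that one of them is algebraic over `ℚ(u)`.

The proof: the quantitative six exponentials theorem of the starting files (`Pool.Agent.R347.SX`), which needs lower
bounds for the integer combinations of three numbers; we prove them for all combinations with coefficients in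
`R`, linearly independent over `R`, of numbers with lower bounds (`Pool.Agent.T6.H3.LF.Low`), here for `l₀ t ^ j`.
-/

set_option autoImplicit false

namespace Pool.Agent.Results.MP_ee2255_nt.PolynomialExponents

open Pool.Agent.T6.H3.LF

/-- the polynomials in `t` with coefficients in `R` -/
noncomputable def W (R : IntermediateField ℚ ℝ) (t : ℂ) : Submodule R ℂ :=
  Submodule.span R (Set.range fun j : ℕ => t ^ j)

/-- the set `S` is an `R`-vector space of dimension at most two and contains `1` -/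
def Small (R : IntermediateField ℚ ℝ) (S : Set ℂ) : Prop :=
  (∃ E : Submodule R ℂ, (E : Set ℂ) = S ∧ Module.rank R E ≤ 2) ∧ 1 ∈ S

/-- the integers `n` and `m` are multiplicatively independent -/
def Independent (n m : ℕ) : Prop := ∀ a b : ℕ, n ^ a = m ^ b → a = 0 ∧ b = 0

/-- the statement (1) -/
def First (K : IntermediateField ℚ ℂ) (R : IntermediateField ℚ ℝ) (t : ℂ) : Prop :=
  ∀ l₀ l₁ : ℂ, Complex.exp l₀ ∈ K → Complex.exp l₁ ∈ K → LinearIndependent R ![l₀, l₁] →
    Small R {u | u ∈ W R t ∧ Complex.exp (l₀ * u) ∈ K ∧ Complex.exp (l₁ * u) ∈ K}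

/-- the statement (2) -/
def Second (K : IntermediateField ℚ ℂ) (R : IntermediateField ℚ ℝ) (t : ℂ) : Prop :=
  ∀ n m : ℕ, 2 ≤ n → 2 ≤ m → Independent n m →
    Small R {u | u ∈ W R t ∧ (n : ℂ) ^ u ∈ K ∧ (m : ℂ) ^ u ∈ K} ∧
    {j : ℕ | 1 ≤ j ∧ (n : ℂ) ^ (t ^ j) ∈ K ∧ (m : ℂ) ^ (t ^ j) ∈ K}.Subsingleton

/-- the statement (3) -/
def Examples : Prop :=
  Far ((Real.pi : ℝ) : ℂ) ∧ (∀ α : ℂ, IsAlgebraic ℚ α → α ≠ 0 → Far (Complex.exp α)) ∧
    (∀ p : ℕ, p.Prime → Far ((Real.log p : ℝ) : ℂ)) ∧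
    ∀ t u : ℂ, Far t → IsAlgebraic (IntermediateField.adjoin ℚ {u}) t → Far u

section

open Pool.Agent.R347.LW Pool.Agent.R347.SX

variable {q : ℕ → ℕ} (hq : ∀ k, 2 ≤ q k)

include hq

theorem ratio_ne {n m : ℕ} (hn : 2 ≤ n) (hm : 2 ≤ m) (h : Independent n m) :
    ¬ ∃ x : ℝ, RAppr q x ∧ ((Real.log m : ℝ) : ℂ) / ((Real.log n : ℝ) : ℂ) = x := by
  have hn0 : (0 : ℝ) < n := by exact_mod_cast (by omega : 0 < n)
  have hm0 : (0 : ℝ) < m := by exact_mod_cast (by omega : 0 < m)
  have hln : 0 < Real.log n := Real.log_pos (by exact_mod_cast (by omega : 1 < n))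
  have hlm : 0 < Real.log m := Real.log_pos (by exact_mod_cast (by omega : 1 < m))
  have key : ∀ a b : ℕ, (a : ℝ) * Real.log n = b * Real.log m → a = 0 ∧ b = 0 := by
    intro a b hab
    apply h
    have h1 : Real.log ((n : ℝ) ^ a) = Real.log ((m : ℝ) ^ b) := by
      rw [Real.log_pow, Real.log_pow, hab]
    have h2 := Real.log_injOn_pos (Set.mem_Ioi.2 (pow_pos hn0 a)) (Set.mem_Ioi.2 (pow_pos hm0 b)) h1
    exact_mod_cast h2
  refine ratio_notR hq ![((Real.log n : ℝ) : ℂ), ((Real.log m : ℝ) : ℂ)]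
    (low_of_alg hq _ (fun i => ?_) fun c hc => ?_) ?_
  · revert i
    rw [Fin.forall_fin_two]
    constructor
    · rw [Matrix.cons_val_zero, ← Complex.ofReal_exp, Real.exp_log hn0]
      exact_mod_cast isAlgebraic_natCast n
    · rw [Matrix.cons_val_one, Matrix.cons_val_fin_one, ← Complex.ofReal_exp, Real.exp_log hm0]
      exact_mod_cast isAlgebraic_natCast m
  · rw [Fin.sum_univ_two] at hc
    simp only [Matrix.cons_val_zero, Matrix.cons_val_one] at hc
    have h1 : (c 0 : ℝ) * Real.log n + (c 1 : ℝ) * Real.log m = 0 := by exact_mod_cast hc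
    rcases le_or_gt 0 (c 0) with h0 | h0
    · have h2 : (c 1 : ℝ) ≤ 0 := by
        by_contra hcon
        push Not at hcon
        have h3 : (0 : ℝ) ≤ c 0 := by exact_mod_cast h0
        have := mul_pos hcon hlm
        have := mul_nonneg h3 hln.le
        linarith
      have h2' : c 1 ≤ 0 := by exact_mod_cast h2
      obtain ⟨a, ha⟩ := Int.eq_ofNat_of_zero_le h0
      obtain ⟨b, hb⟩ := Int.eq_ofNat_of_zero_le (neg_nonneg.2 h2')
      have h4 := key a b (by
        have e1 : (c 0 : ℝ) = a := by exact_mod_cast ha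
        have e2 : -(c 1 : ℝ) = b := by exact_mod_cast hb
        rw [← e1, ← e2]
        linarith)
      funext i
      fin_cases i
      · simp only [Fin.zero_eta, Pi.zero_apply]; omega
      · simp only [Fin.mk_one, Pi.zero_apply]; omega
    · have h2 : (0 : ℝ) ≤ c 1 := by
        by_contra hcon
        push Not at hcon
        have h3 : (c 0 : ℝ) < 0 := by exact_mod_cast h0
        have := mul_neg_of_neg_of_pos hcon hlm
        have := mul_neg_of_neg_of_pos h3 hln
        linarith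
      have h2' : 0 ≤ c 1 := by exact_mod_cast h2
      obtain ⟨a, ha⟩ := Int.eq_ofNat_of_zero_le (neg_nonneg.2 h0.le)
      obtain ⟨b, hb⟩ := Int.eq_ofNat_of_zero_le h2'
      have h4 := key a b (by
        have e1 : -(c 0 : ℝ) = a := by exact_mod_cast ha
        have e2 : (c 1 : ℝ) = b := by exact_mod_cast hb
        rw [← e1, ← e2]
        linarith)
      funext i
      fin_cases i
      · simp only [Fin.zero_eta, Pi.zero_apply]; omega
      · simp only [Fin.mk_one, Pi.zero_apply]; omega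
  · simp only [Matrix.cons_val_zero]
    exact_mod_cast hln.ne'

theorem ratio_of_indep {l₀ l₁ : ℂ} (h : LinearIndependent (UR hq) ![l₀, l₁]) :
    l₀ ≠ 0 ∧ ¬ ∃ x : ℝ, RAppr q x ∧ l₁ / l₀ = x := by
  have h0 : l₀ ≠ 0 := h.ne_zero 0
  refine ⟨h0, ?_⟩
  rintro ⟨x, hx, hxe⟩
  rw [LinearIndependent.pair_iff] at h
  have h1 : l₁ = (x : ℂ) * l₀ := by
    rw [← hxe]
    field_simp
  have h2 := h ⟨x, hx⟩ (-1) (by
    rw [Algebra.smul_def, Algebra.smul_def, map_neg, map_one, h1]
    have e : (algebraMap (UR hq) ℂ ⟨x, hx⟩ : ℂ) = (x : ℂ) := rfl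
    rw [e]
    ring)
  have h3 := h2.2
  norm_num at h3

theorem one_mem_WE {t l₀ l₁ : ℂ} (h0 : Appr q (Complex.exp l₀)) (h1 : Appr q (Complex.exp l₁)) :
    (1 : ℂ) ∈ WE hq t l₀ l₁ := by
  refine ⟨Submodule.subset_span ⟨0, pow_zero t⟩, ?_, ?_⟩
  · rwa [mul_one]
  · rwa [mul_one]

theorem goodInt {t : ℂ} (ht : Pool.Agent.T6.H3.LF.Far t) {n m : ℕ} (hn : 2 ≤ n) (hm : 2 ≤ m)
    (h : Independent n m) :
    Small (UR hq) {u | u ∈ W (UR hq) t ∧ (n : ℂ) ^ u ∈ UK hq ∧ (m : ℂ) ^ u ∈ UK hq} ∧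
    {j : ℕ | 1 ≤ j ∧ (n : ℂ) ^ (t ^ j) ∈ UK hq ∧ (m : ℂ) ^ (t ^ j) ∈ UK hq}.Subsingleton := by
  have hln : Real.log n ≠ 0 := (Real.log_pos (by exact_mod_cast (by omega : 1 < n))).ne'
  have ht' := (far_iff t).1 ht
  have hrk := rank_WE hq t ((Real.log n : ℝ) : ℂ) ((Real.log m : ℝ) : ℂ) ht'
    (by exact_mod_cast hln) (ratio_ne hq hn hm h)
  have hnat : ∀ n : ℕ, 2 ≤ n → Appr q (Complex.exp ((Real.log n : ℝ) : ℂ)) := by
    intro n hn
    have h0 : (0 : ℝ) < n := by exact_mod_cast (by omega : 0 < n)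
    rw [← Complex.ofReal_exp, Real.exp_log h0]
    have := Appr.rat hq ((n : ℕ) : ℚ)
    push_cast at this ⊢
    exact this
  have hone := one_mem_WE hq (t := t) (hnat n hn) (hnat m hm)
  set E := WE hq t ((Real.log n : ℝ) : ℂ) ((Real.log m : ℝ) : ℂ) with hE
  have hmem : ∀ u : ℂ, u ∈ E ↔ u ∈ W (UR hq) t ∧ (n : ℂ) ^ u ∈ UK hq ∧ (m : ℂ) ^ u ∈ UK hq := by
    intro u
    rw [Pool.Agent.T6.H3.LF.natCast_cpow (by omega : 1 ≤ n),
      Pool.Agent.T6.H3.LF.natCast_cpow (by omega : 1 ≤ m), mul_comm u ((Real.log n : ℝ) : ℂ),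
      mul_comm u ((Real.log m : ℝ) : ℂ)]
    rfl
  have hES : (E : Set ℂ) = {u | u ∈ W (UR hq) t ∧ (n : ℂ) ^ u ∈ UK hq ∧ (m : ℂ) ^ u ∈ UK hq} := by
    ext u
    exact hmem u
  refine ⟨⟨⟨E, hES, hrk⟩, hES ▸ hone⟩, ?_⟩
  intro j hj k hk
  by_contra hjk
  have hpow : ∀ j : ℕ, (n : ℂ) ^ (t ^ j) ∈ UK hq → (m : ℂ) ^ (t ^ j) ∈ UK hq → t ^ j ∈ E :=
    fun j h1 h2 => (hmem _).2 ⟨Submodule.subset_span ⟨j, rfl⟩, h1, h2⟩
  have hX0 : t ^ 0 ∈ E := by
    rw [pow_zero]
    exact hone
  have h1 := encard_le_of_indep _ (pow_indep hq ht') E hrk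
  have hsub : ({0, j, k} : Set ℕ) ⊆ {j : ℕ | t ^ j ∈ E} := by
    rintro i (rfl | rfl | rfl)
    · exact hX0
    · exact hpow _ hj.2.1 hj.2.2
    · exact hpow _ hk.2.1 hk.2.2
  have h2 := (Set.encard_le_encard hsub).trans h1
  have h3 : ({0, j, k} : Set ℕ).encard = 3 := by
    refine Set.encard_eq_three.2 ⟨0, j, k, ?_, ?_, hjk, rfl⟩
    · have := hj.1
      omega
    · have := hk.1
      omega
  rw [h3] at h2
  exact absurd h2 (by decide)

end

/-- **Main result.** -/
theorem result :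
    (∀ q : ℕ → ℕ, (∀ k, 2 ≤ q k) →
      ∃ (K : IntermediateField ℚ ℂ) (R : IntermediateField ℚ ℝ), Fields q K R ∧
        ∀ t : ℂ, Far t → First K R t ∧ Second K R t) ∧
    Examples ∧ Explicit := by
  refine ⟨fun q hq => ⟨Pool.Agent.R347.LW.UK hq, Pool.Agent.R347.LW.UR hq, fields hq,
    fun t ht => ⟨fun l₀ l₁ e₀ e₁ hl => ?_, fun n m hn hm h => goodInt hq ht hn hm h⟩⟩,
    ⟨far_pi, fun α hα h0 => far_exp hα h0, fun p hp => far_log hp,
      fun t u ht h => far_of_isAlgebraic ht h⟩, explicit⟩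
  obtain ⟨h0, h1⟩ := ratio_of_indep hq hl
  exact ⟨⟨WE hq t l₀ l₁, rfl, rank_WE hq t l₀ l₁ ((far_iff t).1 ht) h0 h1⟩, one_mem_WE hq e₀ e₁⟩

end Pool.Agent.Results.MP_ee2255_nt.PolynomialExponents
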